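import Pool.Agent.Helper28.LV.StL

/-!
# Project LV, module LQC: from `ℤ_p` to `ℂ` for `WSN`
-/

set_option autoImplicit false

namespace Pool.Agent.Helper67.LV

open Pool.Agent.Helper14.CV Pool.Agent.Helper28.WK Pool.Agent.Helper28.LV

/-- Module LQC. -/
theorem hLQC : StLQC := by
  intro hFar hM hD p hp a n hZ Φ hW
  have key : ∀ lam : ℂ →ₗ[ℚ] ℚ, ∀ x y : ℤ, (x ≠ 0 ∨ y ≠ 0) →
      lam (Φ x y a - Φ 1 0 a) = 0 := by
    intro lam
    have h1 : WSN p a n (fun x y i => lam (Φ x y i)) :=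
      (hM p a n hp.out.ne_zero ℂ ℚ inferInstance inferInstance lam.toAddMonoidHom Φ).1 hW
    obtain ⟨N, Ψ, hN, hΨ, hE⟩ := hD hFar hM p a n _ hp.out h1
    have h2 : WSN p a n (fun x y i => ((Ψ x y i : ℤ) : ℤ_[p])) :=
      (hM p a n hp.out.ne_zero ℤ ℤ_[p] inferInstance inferInstance (Int.castAddHom ℤ_[p]) Ψ).1 hΨ
    obtain ⟨c, hc⟩ := hZ _ h2
    obtain ⟨c', hc'⟩ := hE a (by omega)
    intro x y hxy
    have e0 : (Ψ x y a : ℤ_[p]) = 0 + c := hc x y hxy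
    have e0' : (Ψ 1 0 a : ℤ_[p]) = 0 + c := hc 1 0 (Or.inl one_ne_zero)
    have e1 : (Ψ x y a : ℤ_[p]) = (Ψ 1 0 a : ℤ_[p]) := e0.trans e0'.symm
    have e2 : Ψ x y a = Ψ 1 0 a := Int.cast_injective e1
    have e3 : ((Ψ x y a : ℤ) : ℚ) = N • lam (Φ x y a) + c' := hc' x y hxy
    have e4 : ((Ψ 1 0 a : ℤ) : ℚ) = N • lam (Φ 1 0 a) + c' := hc' 1 0 (Or.inl one_ne_zero)
    have e5 : N • lam (Φ x y a) = N • lam (Φ 1 0 a) := by
      rw [e2] at e3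
      exact add_right_cancel (e3.symm.trans e4)
    rw [map_sub, sub_eq_zero]
    have hN' : (N : ℚ) ≠ 0 := by exact_mod_cast hN
    rw [zsmul_eq_mul, zsmul_eq_mul] at e5
    exact mul_left_cancel₀ hN' e5
  refine ⟨Φ 1 0 a, fun x y hxy => ?_⟩
  have h := (Module.forall_dual_apply_eq_zero_iff ℚ (Φ x y a - Φ 1 0 a)).1
    (fun f => key f x y hxy)
  show Φ x y a = 0 + Φ 1 0 a
  rw [zero_add]
  exact sub_eq_zero.1 h

end Pool.Agent.Helper67.LV
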